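import Mathlib
import Pool.Agent.H18.ProdInt

set_option autoImplicit false

namespace Pool.Agent.Results.MP_1fd3e3_co.UnionQ

open Pool.Agent.H18.ProdInt

universe u v

theorem result (Q : Type u) [Infinite Q] :
    ∀ X ∈ HQ.{u, v} Q, ∀ Y ∈ HQ.{u, v} Q, X ∪ Y ∈ HQ.{u, v} Q := by
  intro X hX Y hY
  rw [HQ_eq] at hX hY ⊢
  exact ⟨fun h => h.elim hX.1 hY.1, Or.inl hX.2⟩

end Pool.Agent.Results.MP_1fd3e3_co.UnionQ
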